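import Pool.Agent.Helper95.KP.HKI

/-! # Packet KP-HKA (MP_5a63b6_lc): an active hook -/

set_option autoImplicit false

namespace Pool.Agent.Helper25.KP

open Pool.Agent.Helper50.KP

section

variable {G : Type} [Group G]

/-- a band of value `1` keeps the value `1` -/
def RR (z z' : G × G) : Prop := vl z = 1 → vl z' = 1

theorem RR_cj (g : G) (z : G × G) : RR z (cj g z) := by
  intro h
  rw [Helper95.KP.vl_cj, h]
  group

theorem f2_map (g : G) (B : List (G × G)) : List.Forall₂ RR B (B.map (cj g)) := by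
  induction B with
  | nil => exact List.Forall₂.nil
  | cons b B ih => exact List.Forall₂.cons (RR_cj g b) ih

theorem f2_refl (B : List (G × G)) : List.Forall₂ RR B B := by
  induction B with
  | nil => exact List.Forall₂.nil
  | cons b B ih => exact List.Forall₂.cons (fun h => h) ih

theorem f2_append {B₁ B₁' B₂ B₂' : List (G × G)} (h1 : List.Forall₂ RR B₁ B₁')
    (h2 : List.Forall₂ RR B₂ B₂') : List.Forall₂ RR (B₁ ++ B₂) (B₁' ++ B₂') := by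
  induction h1 with
  | nil => exact h2
  | cons h _ ih => exact List.Forall₂.cons h ih

theorem f2_get {B B' : List (G × G)} (h : List.Forall₂ RR B B') : ∀ (j : ℕ) (z : G × G),
    B[j]? = some z → ∃ z', B'[j]? = some z' ∧ (vl z = 1 → vl z' = 1) := by
  induction h with
  | nil =>
    intro j z hz
    simp at hz
  | @cons a b l l' hab _ ih =>
    intro j z hz
    rcases j with _ | j
    · rw [List.getElem?_cons_zero] at hz ⊢
      have hz' : a = z := by simpa using hz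
      subst hz'
      exact ⟨b, rfl, hab⟩
    · rw [List.getElem?_cons_succ] at hz ⊢
      exact ih j z hz

end

set_option maxRecDepth 100000 in
theorem fin : pb = vl (cj (vl (pa⁻¹, pb) * ((vl (pa⁻¹, pb))⁻¹ * ((vl (pa⁻¹, pb))⁻¹ * pa *
    vl (pa⁻¹, pb)) * vl (pa⁻¹, pb)) * (vl (pa⁻¹, pb))⁻¹ * ((vl (pa⁻¹, pb))⁻¹ *
    ((vl (pa⁻¹, pb))⁻¹ * pa * vl (pa⁻¹, pb)) * vl (pa⁻¹, pb))⁻¹) (pa⁻¹, pb)) *
    (vl (pa⁻¹, pb) * ((vl (pa⁻¹, pb))⁻¹ * ((vl (pa⁻¹, pb))⁻¹ * pa * vl (pa⁻¹, pb)) *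
    vl (pa⁻¹, pb)) * (vl (pa⁻¹, pb))⁻¹) * (vl (cj (vl (pa⁻¹, pb) * ((vl (pa⁻¹, pb))⁻¹ *
    ((vl (pa⁻¹, pb))⁻¹ * pa * vl (pa⁻¹, pb)) * vl (pa⁻¹, pb)) * (vl (pa⁻¹, pb))⁻¹ *
    ((vl (pa⁻¹, pb))⁻¹ * ((vl (pa⁻¹, pb))⁻¹ * pa * vl (pa⁻¹, pb)) * vl (pa⁻¹, pb))⁻¹)
    (pa⁻¹, pb)))⁻¹ := by
  refine Equiv.ext fun i => ?_
  fin_cases i <;> rfl

theorem gHKA (hHKF : Pool.Agent.Helper50.KP.HKF) : Pool.Agent.Helper50.KP.HKA := by
  intro k m B hx hy
  obtain ⟨l1, e1⟩ := Helper95.KP.split_at B k _ hx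
  have hy' : (B.drop (k + 1))[m]? = some (pa⁻¹, pb) := by
    rw [List.getElem?_drop, ← hy]
    congr 1
    omega
  obtain ⟨l2, e2⟩ := Helper95.KP.split_at (B.drop (k + 1)) m _ hy'
  rw [e2] at e1
  generalize B.take k = B₁ at l1 e1
  generalize (B.drop (k + 1)).take m = B₂ at l2 e1
  generalize (B.drop (k + 1)).drop (m + 1) = B₃ at e1
  clear hx hy hy' e2
  subst e1
  have h := hHKF (Equiv.Perm (Fin 5)) k m B₁ B₂ B₃ (pa⁻¹, pb) (pa⁻¹, pb) pa _ _ _ pb l1 l2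
    rfl rfl rfl fin
  refine ⟨_, h, by simp, ?_⟩
  intro j z hz
  exact f2_get (f2_append (f2_map _ B₁) (List.Forall₂.cons (RR_cj _ _)
    (f2_append (f2_map _ B₂) (List.Forall₂.cons (RR_cj _ _) (f2_refl B₃))))) j z hz

end Pool.Agent.Helper25.KP
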